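import Mathlib

namespace Pool.Agent.Results.MP_ffcab7_co.Counter

open Metric

/-- Closed balls in `ℝ^d` with pairwise disjoint interiors, touching exactly along edges of `G`. -/
def IsPacking {V : Type} (d : ℕ) (G : SimpleGraph V) (c : V → EuclideanSpace ℝ (Fin d))
    (r : V → ℝ) : Prop :=
  (∀ v, 0 < r v) ∧ ∀ u v, u ≠ v → Disjoint (ball (c u) (r u)) (ball (c v) (r v)) ∧
    (G.Adj u v ↔ (closedBall (c u) (r u) ∩ closedBall (c v) (r v)).Nonempty)

/-- A height function. -/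
def IsHeight {V : Type} (G : SimpleGraph V) (f : V → ℤ) : Prop :=
  ∀ u v, G.Adj u v → |f u - f v| ≤ 1

/-- `nb v` is a nearest vertex of lower height, whenever a lower vertex exists. -/
def IsNearest {V : Type} (f : V → ℤ) (c : V → EuclideanSpace ℝ (Fin 2)) (nb : V → V) : Prop :=
  ∀ v, (∃ u, f u < f v) → f (nb v) < f v ∧ ∀ u, f u < f v → dist (c (nb v)) (c v) ≤ dist (c u) (c v)

/-- The augmented graph. -/
def aug {V : Type} (G : SimpleGraph V) (f : V → ℤ) (nb : V → V) : SimpleGraph V :=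
  G ⊔ SimpleGraph.fromRel fun v u => (∃ w, f w < f v) ∧ u = nb v

theorem pack_iff {V : Type} (d : ℕ) (G : SimpleGraph V) (c : V → EuclideanSpace ℝ (Fin d))
    (r : V → ℝ) : IsPacking d G c r ↔ (∀ v, 0 < r v) ∧ ∀ u v, u ≠ v →
      (r u + r v) ^ 2 ≤ dist (c u) (c v) ^ 2 ∧ (G.Adj u v ↔ dist (c u) (c v) ^ 2 ≤ (r u + r v) ^ 2) := by
  refine and_congr_right fun hr => forall₃_congr fun u v _ => ?_
  have h1 := hr u
  have h2 := hr v
  rw [disjoint_ball_ball_iff h1 h2, ← Set.not_disjoint_iff_nonempty_inter,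
    disjoint_closedBall_closedBall_iff h1.le h2.le, not_lt,
    sq_le_sq₀ (by positivity) dist_nonneg, sq_le_sq₀ dist_nonneg (by positivity)]

noncomputable def B (u v : Fin 5 → ℝ) : ℝ := u 0 * v 0 + u 1 * v 1 + u 2 * v 2 - (u 3 * v 4 + u 4 * v 3) / 2

theorem k6 (v : Fin 6 → Fin 5 → ℝ) (h1 : ∀ i, B (v i) (v i) = 1)
    (h2 : ∀ i j, i < j → i ≠ 4 → B (v i) (v j) = -1) (h3 : B (v 4) (v 5) ≤ -1) :
    v 4 + v 5 = v 0 + v 1 + v 2 + v 3 := by
  have hn : ¬ LinearIndependent ℝ v := by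
    intro h
    have := h.fintype_card_le_finrank
    simp at this
  obtain ⟨g, hg, i, hi⟩ := Fintype.not_linearIndependent_iff.1 hn
  have sy : ∀ a b, B a b = B b a := fun a b => by unfold B; ring
  have key : ∀ k, ∑ j, g j * B (v j) (v k) = 0 := by
    intro k
    have e := fun t => congrFun hg t
    simp only [Finset.sum_apply, Pi.smul_apply, smul_eq_mul, Pi.zero_apply, Fin.sum_univ_six] at e
    simp only [Fin.sum_univ_six, B]
    linear_combination (v k 0) * e 0 + (v k 1) * e 1 + (v k 2) * e 2 - (v k 4 / 2) * e 3 - (v k 3 / 2) * e 4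
  have k0 := key 0
  have k1 := key 1
  have k2 := key 2
  have k3 := key 3
  have k4 := key 4
  have k5 := key 5
  simp only [Fin.sum_univ_six, h1] at k0 k1 k2 k3 k4 k5
  rw [sy (v 1), sy (v 2), sy (v 3), sy (v 4), sy (v 5)] at k0
  rw [sy (v 2), sy (v 3), sy (v 4), sy (v 5)] at k1
  rw [sy (v 3), sy (v 4), sy (v 5)] at k2
  rw [sy (v 4), sy (v 5)] at k3
  rw [sy (v 5)] at k4
  simp (disch := decide) only [h2] at k0 k1 k2 k3 k4 k5
  have e45 : g 4 = g 5 := by
    have : (1 - B (v 4) (v 5)) * (g 4 - g 5) = 0 := by linear_combination k4 - k5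
    rcases mul_eq_zero.1 this with h | h <;> linarith
  have e1 : g 1 = g 0 := by linarith
  have e2 : g 2 = g 0 := by linarith
  have e3 : g 3 = g 0 := by linarith
  have e4 : g 4 = - g 0 := by linarith
  have e5 : g 5 = - g 0 := by linarith
  have g0 : g 0 ≠ 0 := by
    intro h
    apply hi
    fin_cases i <;> simp <;> linarith
  funext t
  have e := congrFun hg t
  simp only [Finset.sum_apply, Pi.smul_apply, smul_eq_mul, Pi.zero_apply, Fin.sum_univ_six, e1, e2, e3,
    e4, e5] at e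
  simp only [Pi.add_apply]
  apply mul_left_cancel₀ g0
  linarith

noncomputable def lift (c : EuclideanSpace ℝ (Fin 3)) (r : ℝ) : Fin 5 → ℝ :=
  ![c 0 / r, c 1 / r, c 2 / r, 1 / r, (c 0 ^ 2 + c 1 ^ 2 + c 2 ^ 2 - r ^ 2) / r]

theorem B_lift (c c' : EuclideanSpace ℝ (Fin 3)) (r r' : ℝ) (h : 0 < r) (h' : 0 < r') :
    B (lift c r) (lift c' r') = ((r + r') ^ 2 - dist c c' ^ 2) / (2 * r * r') - 1 := by
  rw [EuclideanSpace.dist_sq_eq]
  simp only [B, lift, Fin.sum_univ_three, Real.dist_eq, sq_abs, Matrix.cons_val_zero, Matrix.cons_val_one,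
    Matrix.cons_val]
  field_simp
  ring

def adjB (u v : Fin 10) : Bool :=
  u != v && (u == 1 || u == 2 || v == 1 || v == 2 ||
    (u != 0 && v != 0 && (u.val + 1 == v.val || v.val + 1 == u.val)))

theorem adjB_symm : ∀ a b, adjB a b = true → adjB b a = true := by decide

theorem adjB_irr : ∀ a, ¬ adjB a a = true := by decide

def G0 : SimpleGraph (Fin 10) where
  Adj a b := adjB a b = true
  symm := ⟨adjB_symm⟩
  loopless := ⟨adjB_irr⟩

def cx : Fin 10 → ℚ := ![0, -1, 1, 0, 0, 0, 0, 0, 0, 0]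
def cy : Fin 10 → ℚ := ![-3/4, 0, 0, 3/4, 5/12, 7/24, 9/40, 11/60, 13/84, 15/112]
def rr : Fin 10 → ℚ := ![1/4, 1, 1, 1/4, 1/12, 1/24, 1/40, 1/60, 1/84, 1/112]

theorem rat1 : ∀ v, 0 < rr v := by decide +kernel

theorem rat2 : ∀ u v, u ≠ v → (rr u + rr v) ^ 2 ≤ (cx u - cx v) ^ 2 + (cy u - cy v) ^ 2 ∧
    (adjB u v = true ↔ (cx u - cx v) ^ 2 + (cy u - cy v) ^ 2 ≤ (rr u + rr v) ^ 2) := by
  decide +kernel

theorem result : ∃ (n : ℕ) (G : SimpleGraph (Fin n)) (c : Fin n → EuclideanSpace ℝ (Fin 2))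
    (r : Fin n → ℝ) (f : Fin n → ℤ) (nb : Fin n → Fin n), G.Connected ∧ IsPacking 2 G c r ∧
    IsHeight G f ∧ IsNearest f c nb ∧ ¬ ∃ c' r', IsPacking 3 (aug G f nb) c' r' := by
  refine ⟨10, G0, fun v => !₂[(cx v : ℝ), (cy v : ℝ)], fun v => (rr v : ℝ),
    fun v => if v = 0 then 0 else 1, fun _ => 0, ?_, ?_, ?_, ?_, ?_⟩
  · have : ∀ v, G0.Reachable 1 v := fun v => by
      by_cases h : v = 1
      · rw [h]
      · refine SimpleGraph.Adj.reachable ?_
        show adjB 1 v = true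
        revert v
        decide
    exact ⟨fun a b => (this a).symm.trans (this b)⟩
  · rw [pack_iff]
    refine ⟨fun v => by exact_mod_cast rat1 v, fun u v h => ?_⟩
    rw [EuclideanSpace.dist_sq_eq]
    simp only [Fin.sum_univ_two, Real.dist_eq, sq_abs, Matrix.cons_val_zero, Matrix.cons_val_one]
    have := rat2 u v h
    refine ⟨by exact_mod_cast this.1, Iff.trans this.2 ?_⟩
    exact_mod_cast Iff.rfl
  · intro u v _
    dsimp only
    split_ifs <;> simp
  · rintro v ⟨w, hw⟩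
    have k : ∀ u : Fin 10, (if u = 0 then (0 : ℤ) else 1) < (if v = 0 then 0 else 1) → u = 0 ∧ v ≠ 0 := by
      intro u
      split_ifs <;> simp_all
    refine ⟨by simp [(k w hw).2], fun u hu => ?_⟩
    rw [(k u hu).1]
  · rintro ⟨c, r, h⟩
    rw [pack_iff] at h
    obtain ⟨hr, h⟩ := h
    have s1 : ∀ i, B (lift (c i) (r i)) (lift (c i) (r i)) = 1 := fun i => by
      have := hr i
      rw [B_lift _ _ _ _ this this, dist_self]
      field_simp
      ring
    have s2 : ∀ i j, i ≠ j → B (lift (c i) (r i)) (lift (c j) (r j)) ≤ -1 := fun i j hij => by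
      have := hr i
      have := hr j
      rw [B_lift _ _ _ _ (hr i) (hr j)]
      have : ((r i + r j) ^ 2 - dist (c i) (c j) ^ 2) / (2 * r i * r j) ≤ 0 :=
        div_nonpos_of_nonpos_of_nonneg (by linarith [(h i j hij).1]) (by positivity)
      linarith
    have s3 : ∀ i j, i ≠ j → (adjB i j = true ∨ i = 0) →
        B (lift (c i) (r i)) (lift (c j) (r j)) = -1 := fun i j hij ha => by
      have a : (aug G0 (fun v => if v = 0 then 0 else 1) fun _ => 0).Adj i j := by
        rcases ha with ha | rfl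
        · exact Or.inl ha
        · exact Or.inr ⟨hij, Or.inr ⟨⟨0, by simp [hij.symm]⟩, rfl⟩⟩
      rw [B_lift _ _ _ _ (hr i) (hr j), le_antisymm ((h i j hij).2.1 a) (h i j hij).1]
      simp
    have step : ∀ x y z : Fin 10, (∀ i j : Fin 6, i < j → i ≠ 4 →
        (![0, 1, 2, y, x, z] : Fin 6 → Fin 10) i ≠ (![0, 1, 2, y, x, z] : Fin 6 → Fin 10) j ∧
        (adjB ((![0, 1, 2, y, x, z] : Fin 6 → Fin 10) i) ((![0, 1, 2, y, x, z] : Fin 6 → Fin 10) j) = true ∨
          (![0, 1, 2, y, x, z] : Fin 6 → Fin 10) i = 0)) → x ≠ z →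
        lift (c x) (r x) + lift (c z) (r z) =
          lift (c 0) (r 0) + lift (c 1) (r 1) + lift (c 2) (r 2) + lift (c y) (r y) := by
      intro x y z hh hxz
      exact k6 (fun i => lift (c ((![0, 1, 2, y, x, z] : Fin 6 → Fin 10) i))
        (r ((![0, 1, 2, y, x, z] : Fin 6 → Fin 10) i))) (fun i => s1 _)
        (fun i j a b => s3 _ _ (hh i j a b).1 (hh i j a b).2) (s2 x z hxz)
    have t1 := step 3 4 5 (by decide) (by decide)
    have t2 := step 4 5 6 (by decide) (by decide)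
    have t4 := step 6 7 8 (by decide) (by decide)
    have t5 := step 7 8 9 (by decide) (by decide)
    have e : lift (c 9) (r 9) = lift (c 3) (r 3) := by
      linear_combination (exp := 1) t4 + t5 - t1 - t2
    have := s2 3 9 (by decide)
    rw [e, s1] at this
    linarith

end Pool.Agent.Results.MP_ffcab7_co.Counter
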